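import Pool.Agent.Helper61.NW.Goals

/-!
# NW-PER: the Cayley graph of a finite-by-`ℤ` group is a periodic graph with finite data
-/

set_option autoImplicit false

namespace Pool.Agent.Helper66.NW

open Pool.Agent.Helper52.Wq2 Pool.Agent.Helper61.NW
open scoped Nat

universe u

variable {Γ : Type u} [Group Γ] {S : Set Γ} {h : Γ → ℤ} {s : Γ} {H n m : ℕ}

theorem h_one (T : Two S h s H n m) : h 1 = 0 := by
  have := T.hom 1 1
  rw [mul_one] at this
  omega

theorem h_inv (T : Two S h s H n m) (g : Γ) : h g⁻¹ = - h g := by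
  have := T.hom g g⁻¹
  rw [mul_inv_cancel, h_one T] at this
  omega

theorem h_zpow (T : Two S h s H n m) (g : Γ) (k : ℤ) : h (g ^ k) = k * h g := by
  have nat : ∀ k : ℕ, h (g ^ k) = k * h g := by
    intro k
    induction k with
    | zero => rw [pow_zero, h_one T]; simp
    | succ k ih => rw [pow_succ, T.hom, ih]; push_cast; ring
  rcases Int.eq_nat_or_neg k with ⟨k, rfl | rfl⟩
  · rw [zpow_natCast, nat]
  · rw [zpow_neg, zpow_natCast, h_inv T, nat]; ring

theorem coset_iff {g g' : Γ} : (g : Γ ⧸ Subgroup.zpowers s) = g' ↔ ∃ k : ℤ, g' = g * s ^ k := by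
  rw [QuotientGroup.eq]
  constructor
  · rintro ⟨k, hk⟩
    exact ⟨k, by rw [show s ^ k = g⁻¹ * g' from hk, mul_inv_cancel_left]⟩
  · rintro ⟨k, rfl⟩
    exact ⟨k, by simp⟩

theorem central (T : Two S h s H n m) (g : Γ) (x : ℤ) :
    g * s ^ ((m : ℤ) * x) = s ^ ((m : ℤ) * x) * g := by
  have h1 : Commute g (s ^ m) := T.cen g
  have h2 := h1.zpow_right x
  rw [← zpow_natCast, ← zpow_mul] at h2
  exact h2

theorem shift (T : Two S h s H n m) (g : Γ) (k : ℤ) : h (g * s ^ k) / H = h g / H + k := by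
  have hH : (0 : ℤ) < H := by exact_mod_cast T.Hpos
  rw [T.hom, h_zpow T, T.Hs, Int.add_mul_ediv_right _ _ hH.ne']

theorem diff_le (T : Two S h s H n m) {g g' : Γ} (hgg : g⁻¹ * g' ∈ S) :
    |h g' / H - h g / H| ≤ 1 := by
  have hN : (0 : ℤ) < H := by exact_mod_cast T.Hpos
  have h1 := T.max _ hgg
  rw [T.hom, h_inv T] at h1
  rw [abs_le] at h1 ⊢
  have a1 := Int.emod_add_mul_ediv (h g) H
  have a2 := Int.emod_add_mul_ediv (h g') H
  have b1 := Int.emod_nonneg (h g) hN.ne'
  have b2 := Int.emod_lt_of_pos (h g) hN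
  have b3 := Int.emod_nonneg (h g') hN.ne'
  have b4 := Int.emod_lt_of_pos (h g') hN
  constructor
  · have : (H : ℤ) * (h g / H) < H * (h g' / H + 2) := by linarith
    have := lt_of_mul_lt_mul_left this hN.le
    omega
  · have : (H : ℤ) * (h g' / H) < H * (h g / H + 2) := by linarith
    have := lt_of_mul_lt_mul_left this hN.le
    omega

theorem per : PerStmt.{u} := by
  intro Γ _ S h s H n m T
  classical
  have hH : (0 : ℤ) < H := by exact_mod_cast T.Hpos
  have hm : (0 : ℤ) < m := by exact_mod_cast T.mpos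
  refine ⟨m * n, ?_, ?_⟩
  · calc m * n ≤ (n ! * n) * n := Nat.mul_le_mul_right n T.mle
      _ = n * (n ! * n) := Nat.mul_comm _ _
  have hfinQ : Finite (Γ ⧸ Subgroup.zpowers s) :=
    Nat.finite_of_card_ne_zero (by rw [T.card]; exact T.npos.ne')
  let e : (Γ ⧸ Subgroup.zpowers s) ≃ Fin n := Finite.equivFinOfCardEq T.card
  have hres : ∀ g : Γ, ((h g / H) % m).toNat < m := by
    intro g
    have b1 := Int.emod_nonneg (h g / H) hm.ne'
    have b2 := Int.emod_lt_of_pos (h g / H) hm
    omega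
  let f : Γ → ℤ × Fin (m * n) := fun g => (h g / H / m,
    finProdFinEquiv (⟨((h g / H) % m).toNat, hres g⟩, e (g : Γ ⧸ Subgroup.zpowers s)))
  have hcos : ∀ (g : Γ) (k : ℤ), ((g * s ^ k : Γ) : Γ ⧸ Subgroup.zpowers s) = g :=
    fun g k => (coset_iff.2 ⟨k, rfl⟩).symm
  have hbij : Function.Bijective f := by
    constructor
    · intro g g' hg
      have h1 : h g / H / m = h g' / H / m := congrArg Prod.fst hg
      have h2 := finProdFinEquiv.injective (congrArg Prod.snd hg)
      have h3 : ((h g / H) % m).toNat = ((h g' / H) % m).toNat :=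
        congrArg Fin.val (congrArg Prod.fst h2)
      have h4 := e.injective (congrArg Prod.snd h2)
      obtain ⟨k, rfl⟩ := coset_iff.1 h4
      have b1 := Int.emod_nonneg (h g / H) hm.ne'
      have b3 := Int.emod_nonneg (h (g * s ^ k) / H) hm.ne'
      have a1 := Int.emod_add_mul_ediv (h g / H) m
      have a2 := Int.emod_add_mul_ediv (h (g * s ^ k) / H) m
      have h5 : (h g / H) % m = (h (g * s ^ k) / H) % m := by omega
      rw [h1, h5] at a1
      have h6 := shift T g k
      have : k = 0 := by omega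
      rw [this, zpow_zero, mul_one]
    · rintro ⟨x, q⟩
      obtain ⟨⟨i, j⟩, rfl⟩ := finProdFinEquiv.surjective q
      obtain ⟨g, hg⟩ := QuotientGroup.mk_surjective (e.symm j)
      have hpos : h (g * s ^ ((i : ℤ) + m * x - h g / H)) / H = i + m * x := by
        rw [shift T]; ring
      have hi : (i : ℤ) < m := by exact_mod_cast i.2
      have hi0 : (0 : ℤ) ≤ (i : ℤ) := Int.natCast_nonneg _
      have hdiv : ((i : ℤ) + m * x) / m = x := by
        rw [Int.add_mul_ediv_left _ _ hm.ne', Int.ediv_eq_zero_of_lt hi0 hi, zero_add]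
      have hmod : ((i : ℤ) + m * x) % m = i := by
        rw [Int.add_mul_emod_self_left, Int.emod_eq_of_lt hi0 hi]
      refine ⟨g * s ^ ((i : ℤ) + m * x - h g / H), Prod.ext ?_ ?_⟩
      · change h (g * s ^ ((i : ℤ) + m * x - h g / H)) / H / m = x
        rw [hpos, hdiv]
      · refine congrArg finProdFinEquiv (Prod.ext (Fin.ext ?_) ?_)
        · change ((h (g * s ^ ((i : ℤ) + m * x - h g / H)) / H) % m).toNat = i
          rw [hpos, hmod, Int.toNat_natCast]
        · change e ((g * s ^ ((i : ℤ) + m * x - h g / H) : Γ) : Γ ⧸ Subgroup.zpowers s) = j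
          rw [hcos, hg, Equiv.apply_symm_apply]
  let E : Γ ≃ ℤ × Fin (m * n) := Equiv.ofBijective f hbij
  have hE : ∀ g, E g = f g := fun g => rfl
  have hE1 : ∀ g, (E g).1 = h g / H / m := fun g => rfl
  have hfs : ∀ (g : Γ) (x : ℤ), f (g * s ^ ((m : ℤ) * x)) = ((f g).1 + x, (f g).2) := by
    intro g x
    have hp := shift T g ((m : ℤ) * x)
    refine Prod.ext ?_ ?_
    · change h (g * s ^ ((m : ℤ) * x)) / H / m = h g / H / m + x
      rw [hp, Int.add_mul_ediv_left _ _ hm.ne']
    · refine congrArg finProdFinEquiv (Prod.ext (Fin.ext ?_) ?_)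
      · change ((h (g * s ^ ((m : ℤ) * x)) / H) % m).toNat = ((h g / H) % m).toNat
        rw [hp, Int.add_mul_emod_self_left]
      · exact congrArg e (hcos g _)
  let r : Fin (m * n) → Γ := fun q => E.symm (0, q)
  have hr : ∀ x q, E.symm (x, q) = r q * s ^ ((m : ℤ) * x) := by
    intro x q
    apply E.injective
    rw [Equiv.apply_symm_apply, hE, hfs]
    have h0 : f (r q) = (0, q) := Equiv.apply_symm_apply E _
    rw [h0, zero_add]
  have hdiff : ∀ g g' : Γ, g⁻¹ * g' ∈ S → |(E g').1 - (E g).1| ≤ 1 := by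
    intro g g' hgg
    have h1 := diff_le T hgg
    rw [hE1, hE1]
    rw [abs_le] at h1 ⊢
    have a1 := Int.emod_add_mul_ediv (h g / H) m
    have a2 := Int.emod_add_mul_ediv (h g' / H) m
    have b1 := Int.emod_nonneg (h g / H) hm.ne'
    have b2 := Int.emod_lt_of_pos (h g / H) hm
    have b3 := Int.emod_nonneg (h g' / H) hm.ne'
    have b4 := Int.emod_lt_of_pos (h g' / H) hm
    constructor
    · have : (m : ℤ) * (h g / H / m) < m * (h g' / H / m + 2) := by linarith
      have := lt_of_mul_lt_mul_left this hm.le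
      omega
    · have : (m : ℤ) * (h g' / H / m) < m * (h g / H / m + 2) := by linarith
      have := lt_of_mul_lt_mul_left this hm.le
      omega
  refine ⟨fun q q' c => decide ((r q)⁻¹ * r q' * s ^ ((m : ℤ) * ((c : ℤ) - 1)) ∈ S),
    ⟨⟨E, ?_⟩⟩⟩
  intro g g'
  obtain ⟨⟨x, q⟩, rfl⟩ := E.symm.surjective g
  obtain ⟨⟨y, q'⟩, rfl⟩ := E.symm.surjective g'
  rw [Equiv.apply_symm_apply, Equiv.apply_symm_apply, cay_adj T.gen]
  have key : ∀ (x y : ℤ) (q q' : Fin (m * n)), (E.symm (x, q))⁻¹ * E.symm (y, q') ∈ S ↔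
      ∃ c : Fin 3, y - x = (c : ℤ) - 1 ∧
        decide ((r q)⁻¹ * r q' * s ^ ((m : ℤ) * ((c : ℤ) - 1)) ∈ S) = true := by
    intro x y q q'
    have e1 : (E.symm (x, q))⁻¹ * E.symm (y, q') =
        (r q)⁻¹ * r q' * s ^ ((m : ℤ) * (y - x)) := by
      rw [hr, hr, mul_inv_rev, ← zpow_neg]
      have e2 : s ^ (-((m : ℤ) * x)) = s ^ ((m : ℤ) * (-x)) := by rw [mul_neg]
      have e3 : (m : ℤ) * (y - x) = (m : ℤ) * (-x) + (m : ℤ) * y := by ring
      rw [e2, e3, zpow_add, ← central T]
      have e4 := central T ((r q)⁻¹ * r q') (-x)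
      calc (r q)⁻¹ * s ^ ((m : ℤ) * -x) * (r q' * s ^ ((m : ℤ) * y))
          = (r q)⁻¹ * (s ^ ((m : ℤ) * -x) * r q') * s ^ ((m : ℤ) * y) := by
            simp only [mul_assoc]
        _ = (r q)⁻¹ * (r q' * s ^ ((m : ℤ) * -x)) * s ^ ((m : ℤ) * y) := by
            rw [central T (r q') (-x)]
        _ = (r q)⁻¹ * r q' * (s ^ ((m : ℤ) * -x) * s ^ ((m : ℤ) * y)) := by
            simp only [mul_assoc]
    constructor
    · intro hmem
      have hd := hdiff _ _ hmem
      rw [Equiv.apply_symm_apply, Equiv.apply_symm_apply, abs_le] at hd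
      simp only at hd
      refine ⟨⟨(y - x + 1).toNat, by omega⟩, ?_, ?_⟩
      · simp only
        omega
      · rw [decide_eq_true_eq]
        have : (((y - x + 1).toNat : ℕ) : ℤ) - 1 = y - x := by omega
        simp only
        rw [this, ← e1]
        exact hmem
    · rintro ⟨c, hc, hmem⟩
      rw [decide_eq_true_eq] at hmem
      rw [e1, hc]
      exact hmem
  unfold Per
  rw [SimpleGraph.fromRel_adj]
  constructor
  · rintro ⟨_, hh | hh⟩
    · exact (key x y q q').2 hh
    · have := (key y x q' q).2 hh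
      have := T.gen.2.1 _ this
      simpa using this
  · intro hmem
    refine ⟨?_, Or.inl ((key x y q q').1 hmem)⟩
    intro heq
    rw [heq, inv_mul_cancel] at hmem
    exact T.gen.2.2 hmem

end Pool.Agent.Helper66.NW
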