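import Pool.Agent.Helper61.NW.Goals2

/-!
# NW-LPR: a line system is a periodic graph with finite data
-/

set_option autoImplicit false

namespace Pool.Agent.Helper66.NW

open Pool.Agent.Helper52.Wq2 Pool.Agent.Helper61.NW

theorem lpr : LprStmt := by
  intro n m G L
  classical
  have hm : (0 : ℤ) < m := by exact_mod_cast L.mpos
  have hperN : ∀ (k : ℕ) (a b : ℤ) (i j : Fin n),
      G.Adj (a, i) (b, j) ↔ G.Adj (a + m * (k : ℤ), i) (b + m * (k : ℤ), j) := by
    intro k
    induction k with
    | zero => intro a b i j; simp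
    | succ k ih =>
      intro a b i j
      rw [ih a b i j, L.per (a + m * (k : ℤ)) (b + m * (k : ℤ)) i j]
      have e1 : a + m * (k : ℤ) + m = a + m * ((k + 1 : ℕ) : ℤ) := by push_cast; ring
      have e2 : b + m * (k : ℤ) + m = b + m * ((k + 1 : ℕ) : ℤ) := by push_cast; ring
      rw [e1, e2]
  have hper : ∀ (x : ℤ) (a b : ℤ) (i j : Fin n),
      G.Adj (a, i) (b, j) ↔ G.Adj (a + m * x, i) (b + m * x, j) := by
    intro x a b i j
    rcases Int.eq_nat_or_neg x with ⟨k, rfl | rfl⟩
    · exact hperN k a b i j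
    · rw [hperN k (a + m * (-(k : ℤ))) (b + m * (-(k : ℤ))) i j]
      have e1 : a + m * (-(k : ℤ)) + m * (k : ℤ) = a := by ring
      have e2 : b + m * (-(k : ℤ)) + m * (k : ℤ) = b := by ring
      rw [e1, e2]
  have hres : ∀ a : ℤ, (a % m).toNat < m := by
    intro a
    have b1 := Int.emod_nonneg a hm.ne'
    have b2 := Int.emod_lt_of_pos a hm
    omega
  -- the block coordinates
  let E : (ℤ × Fin n) ≃ ℤ × Fin (n * m) :=
    { toFun := fun p => (p.1 / m, finProdFinEquiv (p.2, ⟨(p.1 % m).toNat, hres p.1⟩))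
      invFun := fun w => (m * w.1 + ((finProdFinEquiv.symm w.2).2 : ℕ),
        (finProdFinEquiv.symm w.2).1)
      left_inv := by
        rintro ⟨a, j⟩
        have b1 := Int.emod_nonneg a hm.ne'
        have a1 := Int.emod_add_mul_ediv a m
        refine Prod.ext ?_ ?_
        · simp only [Equiv.symm_apply_apply]
          omega
        · simp only [Equiv.symm_apply_apply]
      right_inv := by
        rintro ⟨x, q⟩
        obtain ⟨⟨j, i⟩, rfl⟩ := finProdFinEquiv.surjective q
        have hi : ((i : ℕ) : ℤ) < m := by exact_mod_cast i.2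
        have hi0 : (0 : ℤ) ≤ ((i : ℕ) : ℤ) := Int.natCast_nonneg _
        have hdiv : ((m : ℤ) * x + ((i : ℕ) : ℤ)) / m = x := by
          rw [add_comm, Int.add_mul_ediv_left _ _ hm.ne', Int.ediv_eq_zero_of_lt hi0 hi,
            zero_add]
        have hmod : ((m : ℤ) * x + ((i : ℕ) : ℤ)) % m = i := by
          rw [add_comm, Int.add_mul_emod_self_left, Int.emod_eq_of_lt hi0 hi]
        refine Prod.ext ?_ ?_
        · simp only [Equiv.symm_apply_apply]
          exact hdiv
        · simp only [Equiv.symm_apply_apply]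
          refine congrArg finProdFinEquiv (Prod.ext rfl (Fin.ext ?_))
          simp only
          rw [hmod, Int.toNat_natCast] }
  have hE1 : ∀ p, (E p).1 = p.1 / m := fun p => rfl
  have hEs : ∀ (x : ℤ) (q : Fin (n * m)), E.symm (x, q) =
      ((E.symm (0, q)).1 + m * x, (E.symm (0, q)).2) := by
    intro x q
    change ((m : ℤ) * x + ((finProdFinEquiv.symm q).2 : ℕ), (finProdFinEquiv.symm q).1) =
      ((m : ℤ) * 0 + ((finProdFinEquiv.symm q).2 : ℕ) + m * x, (finProdFinEquiv.symm q).1)
    refine Prod.ext ?_ rfl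
    simp only
    ring
  let r : Fin (n * m) → ℤ × Fin n := fun q => E.symm (0, q)
  have hr : ∀ x q, E.symm (x, q) = ((r q).1 + m * x, (r q).2) := hEs
  have hdiff : ∀ p p' : ℤ × Fin n, G.Adj p p' → |(E p').1 - (E p).1| ≤ 1 := by
    rintro ⟨a, i⟩ ⟨b, j⟩ hadj
    have h1 := L.near a b i j hadj
    have hm1 : (1 : ℤ) ≤ m := hm
    rw [hE1, hE1]
    simp only
    rw [abs_le] at h1 ⊢
    have a1 := Int.emod_add_mul_ediv a m
    have a2 := Int.emod_add_mul_ediv b m
    have b1 := Int.emod_nonneg a hm.ne'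
    have b2 := Int.emod_lt_of_pos a hm
    have b3 := Int.emod_nonneg b hm.ne'
    have b4 := Int.emod_lt_of_pos b hm
    constructor
    · have : (m : ℤ) * (a / m) < m * (b / m + 2) := by linarith
      have := lt_of_mul_lt_mul_left this hm.le
      omega
    · have : (m : ℤ) * (b / m) < m * (a / m + 2) := by linarith
      have := lt_of_mul_lt_mul_left this hm.le
      omega
  refine ⟨fun q q' c => decide (G.Adj ((r q).1, (r q).2)
    ((r q').1 + m * ((c : ℤ) - 1), (r q').2)), ⟨⟨E, ?_⟩⟩⟩
  intro g g'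
  obtain ⟨⟨x, q⟩, rfl⟩ := E.symm.surjective g
  obtain ⟨⟨y, q'⟩, rfl⟩ := E.symm.surjective g'
  rw [Equiv.apply_symm_apply, Equiv.apply_symm_apply]
  have key : ∀ (x y : ℤ) (q q' : Fin (n * m)), G.Adj (E.symm (x, q)) (E.symm (y, q')) ↔
      ∃ c : Fin 3, y - x = (c : ℤ) - 1 ∧
        decide (G.Adj ((r q).1, (r q).2) ((r q').1 + m * ((c : ℤ) - 1), (r q').2)) = true := by
    intro x y q q'
    have e1 : G.Adj (E.symm (x, q)) (E.symm (y, q')) ↔
        G.Adj ((r q).1, (r q).2) ((r q').1 + m * (y - x), (r q').2) := by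
      rw [hr, hr, hper x (r q).1 ((r q').1 + m * (y - x)) (r q).2 (r q').2]
      have e2 : (r q').1 + m * (y - x) + m * x = (r q').1 + m * y := by ring
      rw [e2]
    constructor
    · intro hmem
      have hd := hdiff _ _ hmem
      rw [Equiv.apply_symm_apply, Equiv.apply_symm_apply, abs_le] at hd
      simp only at hd
      refine ⟨⟨(y - x + 1).toNat, by omega⟩, ?_, ?_⟩
      · simp only
        omega
      · rw [decide_eq_true_eq]
        have : (((y - x + 1).toNat : ℕ) : ℤ) - 1 = y - x := by omega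
        simp only
        rw [this]
        exact e1.1 hmem
    · rintro ⟨c, hc, hmem⟩
      rw [decide_eq_true_eq] at hmem
      rw [e1, hc]
      exact hmem
  unfold Per
  rw [SimpleGraph.fromRel_adj]
  constructor
  · rintro ⟨_, hh | hh⟩
    · exact (key x y q q').2 hh
    · exact ((key y x q' q).2 hh).symm
  · intro hmem
    refine ⟨?_, Or.inl ((key x y q q').1 hmem)⟩
    intro heq
    rw [heq] at hmem
    exact G.loopless.irrefl _ hmem

end Pool.Agent.Helper66.NW
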